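import Mathlib

/-!
# Tools for the a priori bound of `v_θ / ρ`

A Gronwall inequality with a weak singularity at the final time and explicit constants, a window
lemma with an explicit length, and a continuity argument on a compact set.
-/

set_option autoImplicit false

open MeasureTheory Set Metric Filter Topology

namespace Pool.Agent.Helper43.AXI

/-- Gronwall's inequality with a weak singularity at the final time `T`: explicit bound of the
dissipation. -/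
theorem gronD {T T₁ t' θ C₀ A N : ℝ} {Y D' G D : ℝ → ℝ} (hθ : θ < 1) (h1 : T₁ ≤ t')
    (hT : t' < T) (hC₀ : 0 ≤ C₀) (hA : 0 ≤ A) (hY : ∀ t, 0 ≤ Y t) (hD0 : ∀ t, 0 ≤ D t)
    (hDc : ContinuousOn D (Icc T₁ t')) (hD1 : ∀ t ∈ Icc T₁ t', HasDerivAt Y (D' t) t)
    (hD2 : ∀ t ∈ Icc T₁ t', D' t ≤ -D t + A * (1 + G t) + C₀ * (T - t) ^ (-θ) * (1 + Y t))
    (hG0 : ∀ t, 0 ≤ G t) (hGi : IntegrableOn G (Icc T₁ t'))
    (hGN : ∫ s in T₁..t', (1 + G s) ≤ N) :
    ∫ s in T₁..t', D s ≤ Real.exp (C₀ / (1 - θ) * (T - T₁) ^ (1 - θ)) * (1 + Y T₁ + A * N) := by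
  have h1θ : 0 < 1 - θ := by linarith
  obtain ⟨a, ha⟩ : ∃ a : ℝ, a = C₀ / (1 - θ) := ⟨_, rfl⟩
  have ha0 : 0 ≤ a := by rw [ha]; positivity
  obtain ⟨F, hF⟩ : ∃ F : ℝ → ℝ, F = fun t => (T - t) ^ (1 - θ) := ⟨_, rfl⟩
  have hF0 : ∀ t, t < T → 0 ≤ F t := by
    intro t ht
    rw [hF]
    exact Real.rpow_nonneg (by linarith) _
  have hFm : ∀ t ∈ Icc T₁ t', F t ≤ F T₁ := by
    intro t ht
    rw [hF]
    exact Real.rpow_le_rpow (by linarith [ht.2]) (by linarith [ht.1]) h1θ.le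
  obtain ⟨E, hE⟩ : ∃ E : ℝ, E = Real.exp (a * F T₁) := ⟨_, rfl⟩
  have hE0 : 0 < E := by rw [hE]; exact Real.exp_pos _
  have hFd : ∀ t, t < T → HasDerivAt F (-((1 - θ) * (T - t) ^ (-θ))) t := by
    intro t ht
    have h1 : HasDerivAt (fun s : ℝ => T - s) (-1) t := by
      simpa using (hasDerivAt_id t).const_sub T
    have h2 := h1.rpow_const (p := 1 - θ) (Or.inl (by linarith : T - t ≠ 0))
    rw [hF]
    have h3 : (1 - θ) - 1 = -θ := by ring
    rw [h3] at h2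
    have h4 : -((1 - θ) * (T - t) ^ (-θ)) = -1 * (1 - θ) * (T - t) ^ (-θ) := by ring
    rw [h4]
    exact h2
  obtain ⟨W, hW⟩ : ∃ W : ℝ → ℝ, W = fun t => (1 + Y t) * Real.exp (a * F t) := ⟨_, rfl⟩
  have hWd : ∀ t ∈ Icc T₁ t', HasDerivAt W (D' t * Real.exp (a * F t) +
      (1 + Y t) * (Real.exp (a * F t) * (a * (-((1 - θ) * (T - t) ^ (-θ)))))) t := by
    intro t ht
    rw [hW]
    exact ((hD1 t ht).const_add 1).mul (((hFd t (ht.2.trans_lt hT)).const_mul a).exp)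
  have hWb : ∀ t ∈ Icc T₁ t', D' t * Real.exp (a * F t) +
      (1 + Y t) * (Real.exp (a * F t) * (a * (-((1 - θ) * (T - t) ^ (-θ)))))
        ≤ -D t + E * A * (1 + G t) := by
    intro t ht
    obtain ⟨x, hx⟩ : ∃ x : ℝ, x = Real.exp (a * F t) := ⟨_, rfl⟩
    obtain ⟨P, hP⟩ : ∃ P : ℝ, P = (T - t) ^ (-θ) := ⟨_, rfl⟩
    have hx0 : 0 < x := by rw [hx]; exact Real.exp_pos _
    have hx1 : 1 ≤ x := by
      rw [hx]
      exact Real.one_le_exp (mul_nonneg ha0 (hF0 t (ht.2.trans_lt hT)))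
    have hxE : x ≤ E := by
      rw [hx, hE, Real.exp_le_exp]
      exact mul_le_mul_of_nonneg_left (hFm t ht) ha0
    have h1 := hD2 t ht
    rw [← hP] at h1
    rw [← hx, ← hP]
    have h2 : a * (-((1 - θ) * P)) = -(C₀ * P) := by
      rw [ha]
      field_simp
    rw [h2]
    have h4 := mul_le_mul_of_nonneg_right h1 hx0.le
    have h5 : x * (A * (1 + G t)) ≤ E * (A * (1 + G t)) :=
      mul_le_mul_of_nonneg_right hxE (mul_nonneg hA (by linarith [hG0 t]))
    have h6 : D t ≤ x * D t := le_mul_of_one_le_left (hD0 t) hx1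
    have h7 : (-D t + A * (1 + G t) + C₀ * P * (1 + Y t)) * x =
        -(x * D t) + x * (A * (1 + G t)) + (1 + Y t) * (x * (C₀ * P)) := by ring
    rw [h7] at h4
    have h8 : (1 + Y t) * (x * -(C₀ * P)) = -((1 + Y t) * (x * (C₀ * P))) := by ring
    rw [h8]
    linarith
  have hDi : IntervalIntegrable D volume T₁ t' := by
    rw [intervalIntegrable_iff_integrableOn_Icc_of_le h1]
    exact hDc.integrableOn_compact isCompact_Icc
  have hci : IntegrableOn (fun _ : ℝ => (1 : ℝ)) (Icc T₁ t') :=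
    integrableOn_const (by rw [Real.volume_Icc]; exact ENNReal.ofReal_ne_top)
  have hGI : IntervalIntegrable (fun s => E * A * (1 + G s)) volume T₁ t' := by
    rw [intervalIntegrable_iff_integrableOn_Icc_of_le h1]
    exact (hci.add hGi).const_mul _
  have h4 := intervalIntegral.sub_le_integral_of_hasDeriv_right_of_le (g := W)
    (φ := fun s => -D s + E * A * (1 + G s)) h1
    (fun s hs => (hWd s hs).continuousAt.continuousWithinAt)
    (fun s hs => (hWd s ⟨hs.1.le, hs.2.le⟩).hasDerivWithinAt)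
    ((hDc.integrableOn_compact isCompact_Icc).neg.add ((hci.add hGi).const_mul (E * A)))
    (fun s hs => hWb s ⟨hs.1.le, hs.2.le⟩)
  have hDn : IntervalIntegrable (fun s => -D s) volume T₁ t' := hDi.neg
  rw [intervalIntegral.integral_add hDn hGI, intervalIntegral.integral_neg,
    intervalIntegral.integral_const_mul] at h4
  have h5 : E * A * ∫ s in T₁..t', (1 + G s) ≤ E * A * N :=
    mul_le_mul_of_nonneg_left hGN (mul_nonneg hE0.le hA)
  have h6 : 0 ≤ W t' := by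
    rw [hW]
    have := hY t'
    simp only
    positivity
  have h7 : W T₁ = (1 + Y T₁) * E := by
    rw [hW, hE]
  have h8 : Real.exp (C₀ / (1 - θ) * (T - T₁) ^ (1 - θ)) = E := by
    rw [hE, hF, ha]
  rw [h8]
  rw [h7] at h4
  linarith

/-- Windows of an explicit length on which the integral is at most one. -/
theorem window {T₁ t' N : ℝ} {g : ℝ → ℝ} (h : T₁ ≤ t') (hN : 0 ≤ N)
    (hg : ContinuousOn g (Icc T₁ t')) (hgN : ∫ s in T₁..t', g s ^ 2 ≤ N) :
    ∫ s in (max T₁ (t' - 1 / (N + 1)))..t', g s ≤ 1 := by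
  obtain ⟨a, ha⟩ : ∃ a : ℝ, a = max T₁ (t' - 1 / (N + 1)) := ⟨_, rfl⟩
  rw [← ha]
  have hτ : 0 < 1 / (N + 1) := by positivity
  have ha1 : T₁ ≤ a := by rw [ha]; exact le_max_left _ _
  have ha2 : a ≤ t' := by rw [ha]; exact max_le h (by linarith)
  have ha3 : t' - 1 / (N + 1) ≤ a := by rw [ha]; exact le_max_right _ _
  have hsub : ∀ s ∈ Icc a t', s ∈ Icc T₁ t' := fun s hs => ⟨ha1.trans hs.1, hs.2⟩
  have hc1 : ContinuousOn g (uIcc a t') := by rw [uIcc_of_le ha2]; exact hg.mono hsub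
  have hc2 : ContinuousOn (fun s => g s ^ 2) (uIcc a t') := hc1.pow 2
  have hc4 : ContinuousOn (fun s => g s ^ 2) (uIcc T₁ a) := by
    rw [uIcc_of_le ha1]
    exact (hg.mono fun s hs => ⟨hs.1, hs.2.trans ha2⟩).pow 2
  have h1 : ∫ s in a..t', g s ^ 2 ≤ N := by
    have h2 := intervalIntegral.integral_add_adjacent_intervals (μ := volume)
      hc4.intervalIntegrable hc2.intervalIntegrable
    have h3 : 0 ≤ ∫ s in T₁..a, g s ^ 2 :=
      intervalIntegral.integral_nonneg ha1 fun s _ => sq_nonneg _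
    linarith
  have h5 : ∫ s in a..t', g s ≤ ∫ s in a..t', ((1 / (2 * (N + 1))) * g s ^ 2 + (N + 1) / 2) := by
    apply intervalIntegral.integral_mono_on ha2 hc1.intervalIntegrable
    · exact ((hc2.intervalIntegrable).const_mul _).add (by simp)
    · intro s _
      have h6 : 0 ≤ (1 / (2 * (N + 1))) * (g s - (N + 1)) ^ 2 := by positivity
      have h7 : (1 / (2 * (N + 1))) * (g s - (N + 1)) ^ 2
          = (1 / (2 * (N + 1))) * g s ^ 2 + (N + 1) / 2 - g s := by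
        field_simp
        ring
      linarith
  rw [intervalIntegral.integral_add ((hc2.intervalIntegrable).const_mul _) (by simp),
    intervalIntegral.integral_const_mul, intervalIntegral.integral_const, smul_eq_mul] at h5
  have h8 : (1 / (2 * (N + 1))) * ∫ s in a..t', g s ^ 2 ≤ (1 / (2 * (N + 1))) * N :=
    mul_le_mul_of_nonneg_left h1 (by positivity)
  have h9 : (1 / (2 * (N + 1))) * N ≤ 1 / 2 := by
    rw [div_mul_eq_mul_div, div_le_div_iff₀ (by positivity) (by norm_num)]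
    linarith
  have h10 : (t' - a) * ((N + 1) / 2) ≤ (1 / (N + 1)) * ((N + 1) / 2) :=
    mul_le_mul_of_nonneg_right (by linarith) (by positivity)
  have h11 : (1 / (N + 1)) * ((N + 1) / 2) = 1 / 2 := by field_simp
  linarith

/-- Continuity argument on a compact set. -/
theorem boot {Z : Type*} [TopologicalSpace Z] {T₁ T : ℝ} {X : Set Z} (hX : IsCompact X)
    {f : ℝ → Z → ℝ} (hf : ContinuousOn (fun z : ℝ × Z => f z.1 z.2) (Ico T₁ T ×ˢ X)) {M : ℝ}
    (h0 : ∀ x ∈ X, f T₁ x < M)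
    (hstep : ∀ t' ∈ Ico T₁ T, (∀ t ∈ Icc T₁ t', ∀ x ∈ X, f t x ≤ M) → ∀ x ∈ X, f t' x < M) :
    ∀ t ∈ Ico T₁ T, ∀ x ∈ X, f t x ≤ M := by
  by_contra hcon
  push Not at hcon
  obtain ⟨t₁, ht₁, x₁, hx₁, hlt⟩ := hcon
  have hsub : Icc T₁ t₁ ×ˢ X ⊆ Ico T₁ T ×ˢ X := prod_mono
    (fun s hs => ⟨hs.1, hs.2.trans_lt ht₁.2⟩) Subset.rfl
  have hK : IsCompact (Icc T₁ t₁ ×ˢ X) := isCompact_Icc.prod hX
  obtain ⟨Q, hQ⟩ : ∃ Q : Set (ℝ × Z), Q = {z ∈ Icc T₁ t₁ ×ˢ X | M ≤ f z.1 z.2} := ⟨_, rfl⟩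
  have hQc : IsCompact Q := by
    rw [isCompact_iff_compactSpace] at hK
    have h1 : Continuous (fun z : (Icc T₁ t₁ ×ˢ X : Set (ℝ × Z)) => f z.1.1 z.1.2) :=
      continuousOn_iff_continuous_domRestrict.1 (hf.mono hsub)
    have h2 : IsCompact {z : (Icc T₁ t₁ ×ˢ X : Set (ℝ × Z)) | M ≤ f z.1.1 z.1.2} :=
      (isClosed_le continuous_const h1).isCompact
    have h3 := h2.image continuous_subtype_val
    convert h3 using 1
    rw [hQ]
    ext z
    constructor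
    · rintro ⟨hz1, hz2⟩
      exact ⟨⟨z, hz1⟩, hz2, rfl⟩
    · rintro ⟨⟨w, hw⟩, hw2, rfl⟩
      exact ⟨hw, hw2⟩
  obtain ⟨S, hS⟩ : ∃ S : Set ℝ, S = Prod.fst '' Q := ⟨_, rfl⟩
  have hSc : IsCompact S := by rw [hS]; exact hQc.image continuous_fst
  have hSn : S.Nonempty := by
    rw [hS, hQ]
    exact ⟨t₁, (t₁, x₁), ⟨⟨⟨ht₁.1, le_rfl⟩, hx₁⟩, hlt.le⟩, rfl⟩
  obtain ⟨t', ht', hmin⟩ := hSc.exists_isLeast hSn
  have ht'2 := ht'
  rw [hS, hQ] at ht'2
  obtain ⟨⟨s, x'⟩, ⟨⟨hs1, hx'⟩, hM⟩, hst⟩ := ht'2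
  simp only at hst hs1 hM hx'
  subst hst
  have hsT : s ∈ Ico T₁ T := ⟨hs1.1, hs1.2.trans_lt ht₁.2⟩
  have hlow : ∀ t, T₁ ≤ t → t < s → ∀ x ∈ X, f t x < M := by
    intro t h1 h2 x hx
    by_contra h3
    push Not at h3
    have : t ∈ S := by
      rw [hS, hQ]
      exact ⟨(t, x), ⟨⟨⟨h1, h2.le.trans hs1.2⟩, hx⟩, h3⟩, rfl⟩
    have := hmin this
    linarith
  have hle : ∀ t ∈ Icc T₁ s, ∀ x ∈ X, f t x ≤ M := by
    intro t ht x hx
    rcases ht.2.lt_or_eq with h1 | h1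
    · exact (hlow t ht.1 h1 x hx).le
    · subst h1
      rcases ht.1.lt_or_eq with h2 | h2
      · have hc : ContinuousOn (fun τ => f τ x) (Icc T₁ t) := by
          have h3 : ContinuousOn (fun τ : ℝ => ((τ, x) : ℝ × Z)) (Icc T₁ t) := by fun_prop
          exact hf.comp (f := fun τ : ℝ => ((τ, x) : ℝ × Z)) h3
            (fun τ hτ => ⟨⟨hτ.1, hτ.2.trans_lt hsT.2⟩, hx⟩)
        have h4 : t ∈ closure (Ico T₁ t) := by
          rw [closure_Ico h2.ne]
          exact ⟨h2.le, le_rfl⟩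
        have h5 : ContinuousWithinAt (fun τ => f τ x) (Ico T₁ t) t :=
          (hc t ⟨h2.le, le_rfl⟩).mono Ico_subset_Icc_self
        exact h5.closure_le h4 continuousWithinAt_const
          (fun τ hτ => (hlow τ hτ.1 hτ.2 x hx).le)
      · rw [← h2]
        exact (h0 x hx).le
  have := hstep s hsT hle x' hx'
  linarith

end Pool.Agent.Helper43.AXI
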