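import Mathlib
import Pool.Agent.Q67.AXI.Defs3
import Pool.Agent.Q285.AXI.Yi
import Pool.Agent.Helper43.AXI.Gron

/-!
# The a priori bound of `v_θ / ρ` (the missing statement `StmBtP` of project AXP)

A bootstrap: if `|v_θ / ρ| ≤ M` up to the time `t'` then the energy inequality `StmYdP` bounds the
dissipation of `ω_θ / ρ` by `M ^ (7 / 16)`, hence `v_ρ / ρ` has integral at most one over time
windows of length `M ^ (-7 / 16)`, and the smoothing estimate `StmSm` gives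
`|v_θ / ρ| ≤ C M ^ (7 / 16) < M` at the time `t'`.
-/

set_option autoImplicit false

open MeasureTheory Set Metric Filter Topology
open scoped ContDiff

namespace Pool.Agent.Helper43.AXI

open H459R3.NS Pool.Agent.W268.NS Pool.Agent.Q67.VD
open Pool.Agent.Q85.CC Pool.Agent.Q85.CL Pool.Agent.TH305.AX Pool.Agent.Q67.AXI
open Pool.Agent.Q285.AXI (slice co_mono gsq_nn dis_int)

/-- The bound of `PM` by a power of `P`. -/
theorem PM_le_pow {M P κ : ℝ} (hM : 1 ≤ M) (hP : 0 < P) (hκ : 0 ≤ κ) :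
    PM M P ≤ M ^ (-(κ / 8)) * P ^ (-(1 + κ)) := by
  have hM0 : 0 < M := by linarith
  unfold PM
  split_ifs with h
  · have h1 : P ^ κ ≤ M ^ (-(κ / 8)) := by
      calc P ^ κ ≤ (M ^ (-(1 / 8) : ℝ)) ^ κ := Real.rpow_le_rpow hP.le h.le hκ
        _ = M ^ (-(κ / 8)) := by
            rw [← Real.rpow_mul hM0.le]
            congr 1
            ring
    have h2 : P⁻¹ = P ^ κ * P ^ (-(1 + κ)) := by
      rw [← Real.rpow_add hP, ← Real.rpow_neg_one]
      congr 1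
      ring
    rw [h2]
    exact mul_le_mul_of_nonneg_right h1 (Real.rpow_nonneg hP.le _)
  · positivity

theorem cy_compact (c r h : ℝ) : IsCompact (Cy c r h) := by
  have hcl : IsClosed (Cy c r h) := by
    have h1 : Continuous (sg : V → ℝ) := by
      unfold sg
      fun_prop
    exact (isClosed_le h1 continuous_const).inter
      (isClosed_le (by fun_prop : Continuous fun x : V => |x 2 - c|) continuous_const)
  refine Metric.isCompact_of_isClosed_isBounded hcl ?_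
  refine (Metric.isBounded_closedBall (x := (0 : V)) (r := |r| + |c| + |h|)).subset ?_
  intro x hx
  rw [mem_closedBall, dist_zero_right, pi_norm_le_iff_of_nonneg (by positivity)]
  have h0 : x 0 ^ 2 + x 1 ^ 2 ≤ r ^ 2 := hx.1
  have h2 : |x 2 - c| ≤ h := hx.2
  have hh : h ≤ |h| := le_abs_self h
  intro i
  rw [Real.norm_eq_abs]
  fin_cases i
  · have : |x 0| ≤ |r| := sq_le_sq.1 (by nlinarith [sq_nonneg (x 1)])
    have := abs_nonneg c
    have := abs_nonneg h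
    simp only [Fin.zero_eta]
    linarith
  · have : |x 1| ≤ |r| := sq_le_sq.1 (by nlinarith [sq_nonneg (x 0)])
    have := abs_nonneg c
    have := abs_nonneg h
    simp only [Fin.mk_one]
    linarith
  · have h3 : |x 2| ≤ |x 2 - c| + |c| := by
      have := abs_add_le (x 2 - c) c
      rwa [sub_add_cancel] at this
    have := abs_nonneg r
    show |x 2| ≤ _
    linarith

/-- AXP-BT: the bound of `v_θ / ρ`. -/
theorem btP : StmAlg → StmJnt → StmDt → StmU → StmSm → StmYdP → StmBtP := by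
  intro hAlg hJnt hDt hU hSm hYd
  intro T E c R H K r h r1 h1 T₁ C' Cc α' θ u p φ hA hK hr1 hr1r hrR hr2 hh1 hh1h hhH hh hT₁ hT₁T
    hC' hCc hα hα2 hθ0 hθ1 hcut hout hcirc
  -- exponents
  obtain ⟨κ, hκ⟩ : ∃ κ : ℝ, κ = (1 - θ) / (2 * θ) := ⟨_, rfl⟩
  have hκ0 : 0 < κ := by
    rw [hκ]
    have : 0 < 1 - θ := by linarith
    positivity
  obtain ⟨θ', hθ'⟩ : ∃ θ' : ℝ, θ' = (1 + θ) / 2 := ⟨_, rfl⟩
  have hθ'1 : θ' < 1 := by rw [hθ']; linarith
  have hθκ : θ * (1 + κ) = θ' := by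
    rw [hκ, hθ']
    field_simp
    ring
  obtain ⟨ε₀, hε₀⟩ : ∃ ε₀ : ℝ, ε₀ = min (1 / 16) (κ / 8) := ⟨_, rfl⟩
  have hε0 : 0 < ε₀ := by rw [hε₀]; exact lt_min (by norm_num) (by positivity)
  have hε1 : ε₀ ≤ 1 / 16 := by rw [hε₀]; exact min_le_left _ _
  have hε2 : ε₀ ≤ κ / 8 := by rw [hε₀]; exact min_le_right _ _
  obtain ⟨C₀, M₀, hC₀, hM₀, hyd⟩ := hYd T E c R H K r h r1 h1 T₁ C' Cc α' θ ε₀ u p φ hA hK hr1
    hr1r hrR hr2 hh1 hh1h hhH hh hT₁ hT₁T hC' hCc hα hα2 hε0 hcut hout hcirc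
  have hr0 : 0 < r := hr1.trans hr1r
  have hr1' : r ≤ 1 := by
    by_contra hcon
    push Not at hcon
    have : Real.exp (-2) < 1 := by
      rw [Real.exp_lt_one_iff]
      norm_num
    nlinarith
  have hsub : Co c r h ⊆ Co c R H := co_mono hr0 hrR hhH
  have hsub1 : Cy c r1 h1 ⊆ Co c r h := fun x hx =>
    ⟨hx.1.trans_lt (by nlinarith), hx.2.trans_lt hh1h⟩
  have hI : ∀ t ∈ Ico T₁ T, t ∈ Ioo 0 T := fun t ht => ⟨hT₁.trans_le ht.1, ht.2⟩
  have hT0 : 0 < T := hT₁.trans hT₁T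
  obtain ⟨j1, j2, j3, j4⟩ := hJnt T u hA.smooth_u
  -- the dissipation of the velocity
  obtain ⟨G, hG⟩ : ∃ G : ℝ → ℝ, G = fun t => ∫ x in Co c r h, W221.NS.gsq (u t) x := ⟨_, rfl⟩
  have hGint : IntegrableOn G (Ioo 0 T) := by rw [hG]; exact dis_int hsub hA.dis
  have hGnn : ∀ t, 0 ≤ G t := by
    intro t
    rw [hG]
    exact integral_nonneg fun x => gsq_nn _ x
  obtain ⟨D₀, hD₀⟩ : ∃ D₀ : ℝ, D₀ = ∫ s in Ioo 0 T, G s := ⟨_, rfl⟩
  have hD₀0 : 0 ≤ D₀ := by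
    rw [hD₀]
    exact integral_nonneg fun s => hGnn s
  have hsub2 : ∀ t ∈ Ico T₁ T, Icc T₁ t ⊆ Ioo 0 T := fun t ht s hs =>
    ⟨hT₁.trans_le hs.1, hs.2.trans_lt ht.2⟩
  have hGi : ∀ t ∈ Ico T₁ T, IntegrableOn G (Icc T₁ t) := fun t ht => hGint.mono_set (hsub2 t ht)
  have hGD : ∀ t ∈ Ico T₁ T, ∫ s in T₁..t, (1 + G s) ≤ T + D₀ := by
    intro t ht
    have hii : IntervalIntegrable G volume T₁ t :=
      (intervalIntegrable_iff_integrableOn_Icc_of_le ht.1).2 (hGi t ht)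
    rw [intervalIntegral.integral_add (by simp) hii]
    rw [intervalIntegral.integral_const, smul_eq_mul, mul_one]
    have h6 : ∫ s in T₁..t, G s ≤ D₀ := by
      rw [intervalIntegral.integral_of_le ht.1, hD₀]
      refine setIntegral_mono_set hGint ?_ ?_
      · exact Eventually.of_forall fun s => hGnn s
      · exact (Ioc_subset_Icc_self.trans (hsub2 t ht)).eventuallyLE
    have := ht.2
    linarith
  -- the dissipations of `JJ` and `OO`
  have hGD0 : ∀ f : V → ℝ, 0 ≤ GD f := fun f =>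
    integral_nonneg fun x => Finset.sum_nonneg fun _ _ => sq_nonneg _
  obtain ⟨DJ, hDJ⟩ : ∃ DJ : ℝ → ℝ, DJ = fun t => GD (fun x => φ x * JJ (u t) x) := ⟨_, rfl⟩
  obtain ⟨DO, hDO⟩ : ∃ DO : ℝ → ℝ, DO = fun t => GD (fun x => φ x * OO (u t) x) := ⟨_, rfl⟩
  have hDJc : ContinuousOn DJ (Ico T₁ T) := by
    rw [hDJ]
    exact (hDt T (fun t => JJ (u t)) φ j3 hcut.sm hcut.cs).1.mono hI
  have hDOc : ContinuousOn DO (Ico T₁ T) := by
    rw [hDO]
    exact (hDt T (fun t => OO (u t)) φ j4 hcut.sm hcut.cs).1.mono hI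
  have hDJ0 : ∀ t, 0 ≤ DJ t := by
    intro t
    rw [hDJ]
    exact hGD0 _
  have hDO0 : ∀ t, 0 ≤ DO t := by
    intro t
    rw [hDO]
    exact hGD0 _
  have hYJ : ∀ t, 0 ≤ ∫ x, φ x ^ 2 * JJ (u t) x ^ 2 := fun t =>
    integral_nonneg fun x => mul_nonneg (sq_nonneg _) (sq_nonneg _)
  have hYO : ∀ t, 0 ≤ ∫ x, φ x ^ 2 * OO (u t) x ^ 2 := fun t =>
    integral_nonneg fun x => mul_nonneg (sq_nonneg _) (sq_nonneg _)
  obtain ⟨Y₁, hY₁⟩ : ∃ Y₁ : ℝ, Y₁ = (∫ x, φ x ^ 2 * JJ (u T₁) x ^ 2)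
      + ∫ x, φ x ^ 2 * OO (u T₁) x ^ 2 := ⟨_, rfl⟩
  have hY₁0 : 0 ≤ Y₁ := by rw [hY₁]; exact add_nonneg (hYJ T₁) (hYO T₁)
  obtain ⟨Ex, hEx⟩ : ∃ Ex : ℝ, Ex = Real.exp (C₀ / (1 - θ') * (T - T₁) ^ (1 - θ')) := ⟨_, rfl⟩
  have hEx0 : 0 < Ex := by rw [hEx]; exact Real.exp_pos _
  obtain ⟨C₅, hC₅⟩ : ∃ C₅ : ℝ, C₅ = Ex * (1 + Y₁ + C₀ * (T + D₀)) := ⟨_, rfl⟩
  have hC₅0 : 0 ≤ C₅ := by rw [hC₅]; positivity
  -- the bounds of `UU`
  obtain ⟨C₂, hC₂, hU'⟩ := hU K c r h r1 h1 hK hr1 hr1r hr1' hh1 hh1h hh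
  have hUt : ∀ t ∈ Ico T₁ T, _ := fun t ht => hU' (u t) φ (slice hA.smooth_u (hI t ht))
    (hA.axi t (hI t ht)) (fun x hx => hA.divfree t (hI t ht) x (hsub hx)) hcut (hout t ht)
  -- smoothing
  have hW_out : ∀ t ∈ Ico T₁ T, ∀ x ∈ Cy c r h, x ∉ Co c r1 h1 → |WW (u t) x| ≤ K := by
    intro t ht x hx hx2
    refine (hout t ht x ⟨hx, ?_⟩).2.2.1
    by_contra hcon
    push Not at hcon
    exact hx2 ⟨hcon.1, hcon.2⟩
  obtain ⟨C₃, hC₃, hsm⟩ := hSm T E c R H r1 h1 T₁ K Cc u p hA hr1 (hr1r.trans hrR) hh1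
    (hh1h.trans hhH) hT₁ hT₁T (by
      intro t ht x hx
      refine ⟨(hcirc t ht x (hsub1 hx)).1, fun hbd => ?_⟩
      refine hW_out t ht x ⟨(hsub1 hx).1.le, (hsub1 hx).2.le⟩ ?_
      rintro ⟨hc1, hc2⟩
      rcases hbd with hbd | hbd
      · linarith
      · linarith)
  -- the constant of the bootstrap
  obtain ⟨Qc, hQc⟩ : ∃ Qc : ℝ, Qc = C₃ * (C₂ * (T + C₅) + 1) := ⟨_, rfl⟩
  have hQc0 : 0 ≤ Qc := by rw [hQc]; positivity
  -- the initial bound
  have hWc : ContinuousOn (fun z : ℝ × V => |WW (u z.1) z.2|) (Ico T₁ T ×ˢ Cy c r h) :=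
    (j2.continuousOn.mono (prod_mono hI (subset_univ _))).abs
  have hCyc : IsCompact (Cy c r h) := cy_compact c r h
  obtain ⟨W₁, hW₁⟩ : ∃ W₁ : ℝ, ∀ x ∈ Cy c r h, |WW (u T₁) x| ≤ W₁ := by
    have h1 : ContinuousOn (fun x => |WW (u T₁) x|) (Cy c r h) :=
      hWc.comp (f := fun x : V => ((T₁, x) : ℝ × V)) (by fun_prop)
        (fun x hx => ⟨⟨le_rfl, hT₁T⟩, hx⟩)
    obtain ⟨b, hb⟩ := (hCyc.image_of_continuousOn h1).bddAbove
    exact ⟨b, fun x hx => hb ⟨x, hx, rfl⟩⟩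
  obtain ⟨M, hMd⟩ : ∃ M : ℝ, M = max (max M₀ ((Qc + 1) ^ 2)) (max (K + 1) (W₁ + 1)) := ⟨_, rfl⟩
  have hMM₀ : M₀ ≤ M := by rw [hMd]; exact (le_max_left _ _).trans (le_max_left _ _)
  have hMQ : (Qc + 1) ^ 2 ≤ M := by rw [hMd]; exact (le_max_right _ _).trans (le_max_left _ _)
  have hMK : K < M := by
    have : K + 1 ≤ M := by rw [hMd]; exact (le_max_left _ _).trans (le_max_right _ _)
    linarith
  have hMW : W₁ < M := by
    have : W₁ + 1 ≤ M := by rw [hMd]; exact (le_max_right _ _).trans (le_max_right _ _)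
    linarith
  have hM1 : 1 ≤ M := by linarith
  have hM0 : 0 < M := by linarith
  obtain ⟨l, hl1, hl2, hl⟩ := hyd M hMM₀
  have hl0 : 0 < l := (Real.rpow_pos_of_pos hM0 _).trans_le hl1
  obtain ⟨m, hm⟩ : ∃ m : ℝ, m = M ^ (7 / 16 : ℝ) := ⟨_, rfl⟩
  have hm1 : 1 ≤ m := by rw [hm]; exact Real.one_le_rpow hM1 (by norm_num)
  have hmQ : Qc * m < M := by
    have h1 : Qc + 1 ≤ M ^ (1 / 2 : ℝ) := by
      rw [← Real.sqrt_eq_rpow]
      exact Real.le_sqrt_of_sq_le hMQ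
    have h2 : M ^ (1 / 2 : ℝ) ≤ M ^ (9 / 16 : ℝ) :=
      Real.rpow_le_rpow_of_exponent_le hM1 (by norm_num)
    have h3 : M ^ (9 / 16 : ℝ) * m = M := by
      rw [hm, ← Real.rpow_add hM0]
      norm_num
    nlinarith
  -- the bootstrap
  have key := boot (T₁ := T₁) (T := T) hCyc (f := fun t x => |WW (u t) x|) hWc (M := M)
    (fun x hx => (hW₁ x hx).trans_lt hMW) (by
    intro t' ht' hle x hx
    by_cases hx1 : x ∈ Cy c r1 h1
    swap
    · exact (hW_out t' ht' x hx fun hc => hx1 ⟨hc.1.le, hc.2.le⟩).trans_lt hMK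
    have hIt : ∀ t ∈ Icc T₁ t', t ∈ Ico T₁ T := fun t ht => ⟨ht.1, ht.2.trans_lt ht'.2⟩
    obtain ⟨Y, hY⟩ : ∃ Y : ℝ → ℝ, Y = fun s => (∫ x, φ x ^ 2 * JJ (u s) x ^ 2)
        + l * ∫ x, φ x ^ 2 * OO (u s) x ^ 2 := ⟨_, rfl⟩
    have hYnn : ∀ t, 0 ≤ Y t := by
      intro t
      rw [hY]
      exact add_nonneg (hYJ t) (mul_nonneg hl0.le (hYO t))
    have hder : ∀ t ∈ Icc T₁ t', ∃ D' : ℝ, HasDerivAt Y D' t ∧
        D' ≤ -(DJ t + l * DO t) + C₀ * M ^ (3 / 8 : ℝ) * (1 + G t)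
          + C₀ * (T - t) ^ (-θ') * (1 + Y t) := by
      intro t ht
      obtain ⟨D', hD1, hD2⟩ := hl t (hIt t ht) (fun y hy => hle t ht y ⟨hy.1.le, hy.2.le⟩)
      refine ⟨D', by rw [hY]; exact hD1, hD2.trans ?_⟩
      have hTt : 0 < T - t := by linarith [(hIt t ht).2]
      have g4 : 0 < (T - t) ^ θ := Real.rpow_pos_of_pos hTt _
      have g5 : PM M ((T - t) ^ θ) ≤ l * (T - t) ^ (-θ') := by
        refine (PM_le_pow hM1 g4 hκ0.le).trans ?_
        have g6 : ((T - t) ^ θ) ^ (-(1 + κ)) = (T - t) ^ (-θ') := by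
          rw [← Real.rpow_mul hTt.le, ← hθκ]
          congr 1
          ring
        rw [g6]
        refine mul_le_mul_of_nonneg_right ?_ (Real.rpow_nonneg hTt.le _)
        refine le_trans ?_ hl1
        exact Real.rpow_le_rpow_of_exponent_le hM1 (by linarith)
      have g7 : 0 ≤ 1 + Y t / l := by
        have := div_nonneg (hYnn t) hl0.le
        linarith
      have g8 : C₀ * PM M ((T - t) ^ θ) * (1 + Y t / l) ≤ C₀ * (T - t) ^ (-θ') * (1 + Y t) := by
        have g9 : C₀ * PM M ((T - t) ^ θ) * (1 + Y t / l)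
            ≤ C₀ * (l * (T - t) ^ (-θ')) * (1 + Y t / l) :=
          mul_le_mul_of_nonneg_right (mul_le_mul_of_nonneg_left g5 hC₀) g7
        have g10 : C₀ * (l * (T - t) ^ (-θ')) * (1 + Y t / l)
            = C₀ * (T - t) ^ (-θ') * (l + Y t) := by
          field_simp
        have g11 : C₀ * (T - t) ^ (-θ') * (l + Y t) ≤ C₀ * (T - t) ^ (-θ') * (1 + Y t) :=
          mul_le_mul_of_nonneg_left (by linarith)
            (mul_nonneg hC₀ (Real.rpow_nonneg hTt.le _))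
        linarith
      have g12 : Y t = (∫ x, φ x ^ 2 * JJ (u t) x ^ 2) + l * ∫ x, φ x ^ 2 * OO (u t) x ^ 2 := by
        rw [hY]
      rw [← g12]
      rw [hDJ, hDO, hG]
      simp only
      linarith
    choose! D' hD1 hD2 using hder
    have hDc : ContinuousOn (fun t => DJ t + l * DO t) (Icc T₁ t') :=
      (hDJc.mono hIt).add (continuousOn_const.mul (hDOc.mono hIt))
    have hgr := gronD (T := T) (θ := θ') (C₀ := C₀) (A := C₀ * M ^ (3 / 8 : ℝ)) (N := T + D₀)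
      (Y := Y) (D' := D') (G := G) (D := fun t => DJ t + l * DO t) hθ'1 ht'.1 ht'.2 hC₀
      (by positivity) hYnn (fun t => add_nonneg (hDJ0 t) (mul_nonneg hl0.le (hDO0 t)))
      hDc hD1 hD2 hGnn (hGi t' ht') (hGD t' ht')
    rw [← hEx] at hgr
    -- the integral of `DO`
    have hDOi : IntervalIntegrable DO volume T₁ t' := by
      rw [intervalIntegrable_iff_integrableOn_Icc_of_le ht'.1]
      exact (hDOc.mono hIt).integrableOn_compact isCompact_Icc
    have hDJi : IntervalIntegrable DJ volume T₁ t' := by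
      rw [intervalIntegrable_iff_integrableOn_Icc_of_le ht'.1]
      exact (hDJc.mono hIt).integrableOn_compact isCompact_Icc
    rw [intervalIntegral.integral_add hDJi (hDOi.const_mul l),
      intervalIntegral.integral_const_mul] at hgr
    have hJi0 : 0 ≤ ∫ s in T₁..t', DJ s :=
      intervalIntegral.integral_nonneg ht'.1 fun s _ => hDJ0 s
    have hYT : Y T₁ ≤ Y₁ := by
      rw [hY, hY₁]
      have := mul_le_of_le_one_left (hYO T₁) hl2
      simp only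
      linarith
    have hDOb : ∫ s in T₁..t', DO s ≤ C₅ * m := by
      obtain ⟨q, hq⟩ : ∃ q : ℝ, q = M ^ (3 / 8 : ℝ) := ⟨_, rfl⟩
      have hq1 : 1 ≤ q := by rw [hq]; exact Real.one_le_rpow hM1 (by norm_num)
      rw [← hq] at hgr
      have k1 : Ex * (1 + Y T₁ + C₀ * q * (T + D₀)) ≤ C₅ * q := by
        have k2 : 1 + Y T₁ + C₀ * q * (T + D₀) ≤ (1 + Y₁ + C₀ * (T + D₀)) * q := by
          have k3 : 1 + Y₁ ≤ (1 + Y₁) * q := le_mul_of_one_le_right (by linarith) hq1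
          have k4 : C₀ * q * (T + D₀) = C₀ * (T + D₀) * q := by ring
          rw [k4, add_mul]
          linarith
        have k3 := mul_le_mul_of_nonneg_left k2 hEx0.le
        rw [hC₅]
        linarith
      have k5 : l * ∫ s in T₁..t', DO s ≤ C₅ * q := by linarith
      obtain ⟨w, hw⟩ : ∃ w : ℝ, w = M ^ (1 / 16 : ℝ) := ⟨_, rfl⟩
      have hw0 : 0 < w := by rw [hw]; exact Real.rpow_pos_of_pos hM0 _
      have hwl : 1 ≤ w * l := by
        have k6 : M ^ (-(1 / 16) : ℝ) ≤ l :=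
          (Real.rpow_le_rpow_of_exponent_le hM1 (by linarith)).trans hl1
        have k7 : w * M ^ (-(1 / 16) : ℝ) = 1 := by
          rw [hw, ← Real.rpow_add hM0]
          norm_num
        calc (1 : ℝ) = w * M ^ (-(1 / 16) : ℝ) := k7.symm
          _ ≤ w * l := mul_le_mul_of_nonneg_left k6 hw0.le
      have hqw : w * q = m := by
        rw [hw, hq, hm, ← Real.rpow_add hM0]
        norm_num
      have hDOn : 0 ≤ ∫ s in T₁..t', DO s :=
        intervalIntegral.integral_nonneg ht'.1 fun s _ => hDO0 s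
      calc ∫ s in T₁..t', DO s ≤ (w * l) * ∫ s in T₁..t', DO s :=
            le_mul_of_one_le_left hDOn hwl
        _ = w * (l * ∫ s in T₁..t', DO s) := by ring
        _ ≤ w * (C₅ * q) := mul_le_mul_of_nonneg_left k5 hw0.le
        _ = C₅ * m := by rw [← hqw]; ring
    -- the window
    obtain ⟨g, hg⟩ : ∃ g : ℝ → ℝ, g = fun t => √(C₂ * (1 + DO t)) := ⟨_, rfl⟩
    have hgc : ContinuousOn g (Icc T₁ t') := by
      rw [hg]
      exact (continuousOn_const.mul (continuousOn_const.add (hDOc.mono hIt))).sqrt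
    have hg2 : ∀ t, g t ^ 2 = C₂ * (1 + DO t) := by
      intro t
      rw [hg]
      exact Real.sq_sqrt (mul_nonneg hC₂ (by linarith [hDO0 t]))
    obtain ⟨N, hN⟩ : ∃ N : ℝ, N = C₂ * (T + C₅) * m := ⟨_, rfl⟩
    have hN0 : 0 ≤ N := by rw [hN]; positivity
    have hgN : ∫ s in T₁..t', g s ^ 2 ≤ N := by
      simp only [hg2]
      rw [intervalIntegral.integral_const_mul, intervalIntegral.integral_add (by simp) hDOi,
        intervalIntegral.integral_const, smul_eq_mul, mul_one, hN, mul_assoc]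
      refine mul_le_mul_of_nonneg_left ?_ hC₂
      have k1 : T ≤ T * m := le_mul_of_one_le_right hT0.le hm1
      have := ht'.2
      linarith
    have hwin := window ht'.1 hN0 hgc hgN
    have hτ1 : 1 / (N + 1) ∈ Ioc (0 : ℝ) 1 := by
      refine ⟨by positivity, ?_⟩
      rw [div_le_one (by positivity)]
      linarith
    have hfin := hsm (1 / (N + 1)) hτ1 t' ht' g hgc (fun t ht y hy => by
      have h3 := (hUt t (hIt t ht)).2.2.1 y
      rw [hcut.one y hy, one_mul] at h3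
      apply Real.abs_le_sqrt at h3
      rw [hg, hDO]
      exact h3) hwin x hx1
    have hfin2 : C₃ / (1 / (N + 1)) = C₃ * (N + 1) := by
      rw [div_div_eq_mul_div, div_one]
    rw [hfin2] at hfin
    have hfin3 : C₃ * (N + 1) ≤ Qc * m := by
      rw [hQc, hN, mul_assoc C₃]
      refine mul_le_mul_of_nonneg_left ?_ hC₃
      rw [add_mul]
      linarith
    exact (hfin.trans hfin3).trans_lt hmQ)
  exact ⟨M, hM0.le, fun t ht x hx => key t ht x ⟨hx.1.le, hx.2.le⟩⟩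

end Pool.Agent.Helper43.AXI
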