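import Pool.Agent.Q65.AXI.MainP
import Pool.Agent.Q95.AXI.Gd
import Pool.Agent.Q151.AXI.GR
import Pool.Agent.Q151.AXI.Der
import Pool.Agent.Q65.AXI.LogP
import Pool.Agent.Q24.AXI.Cut
import Pool.Agent.Q24.AXI.YiP
import Pool.Agent.Q285.AXI.Fin
import Pool.Agent.Q16.AXI.Mo
import Pool.Agent.Q285.AXI.Reg
import Pool.Agent.Q257.AXI.Alg
import Pool.Agent.Q257.AXI.AxF
import Pool.Agent.Q257.AXI.Div
import Pool.Agent.Q257.AXI.H0
import Pool.Agent.Q257.AXI.Kap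
import Pool.Agent.Q16.AXI.Tra
import Pool.Agent.Q16.AXI.BQ
import Pool.Agent.Q119.AXI.Who
import Pool.Agent.Q119.AXI.Bar
import Pool.Agent.Q119.AXI.Sob
import Pool.Agent.Q119.AXI.Dt
import Pool.Agent.Q182.AXI.AAs
import Pool.Agent.Q182.AXI.T1P
import Pool.Agent.Q153.AXI.T2P
import Pool.Agent.Q153.AXI.EqJ
import Pool.Agent.Q153.AXI.EqW
import Pool.Agent.Q153.AXI.Jnt
import Pool.Agent.Q153.AXI.Psi
import Pool.Agent.Q150.AXI.EqO
import Pool.Agent.Q149.AXI.EqC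
import Pool.Agent.Q95.AXP.Yd
import Pool.Agent.Q175.AX.Har
import Pool.Agent.Q175.AX.Ell
import Pool.Agent.Q175.AX.UU
import Pool.Agent.Q175.AX.Rho
import Pool.Agent.Q175.AX.Sm
import Pool.Agent.Q111.AXI.Cac
import Pool.Agent.Helper43.AXI.Bt

/-!
# Assembly of the theorem on strong inflow at the singular points of the axis
-/

set_option autoImplicit false

namespace Pool.Agent.Helper43.AXI

open Pool.Agent.Q67.AXI

theorem tAAs : StmAAs := Pool.Agent.Q182.AXI.aas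

theorem tAxF : StmAxF := Pool.Agent.Q257.AXI.t_AxF tAAs

theorem tAlg : StmAlg := Pool.Agent.Q257.AXI.t_Alg tAAs tAxF

theorem tDiv : StmDiv := Pool.Agent.Q257.AXI.t_Div tAAs tAxF tAlg

theorem tH0 : StmH0 := Pool.Agent.Q257.AXI.t_H0

theorem tKap : StmKap := Pool.Agent.Q257.AXI.t_Kap tAAs tAxF tAlg

theorem tHar : StmHar := Pool.Agent.Q175.AX.har

theorem tEll : StmEll := Pool.Agent.Q175.AX.ell tH0 tAxF

theorem tSob : StmSob := Pool.Agent.Q119.AXI.stmSob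

theorem tEn : Pool.Agent.Q67.AXI.StmEn := Pool.Agent.Q175.AX.en tH0

theorem tU : StmU := Pool.Agent.Q175.AX.stmU tAlg tAxF tDiv tEll tSob

theorem tT1P : StmT1P := Pool.Agent.Q182.AXI.T1P.t_T1P tAlg tAxF tHar tU

theorem tT2P : StmT2P := Pool.Agent.Q153.AXI.t_T2P tAlg tHar

theorem tDt : StmDt := Pool.Agent.Q119.AXI.stmDt

theorem tJnt : StmJnt := Pool.Agent.Q153.AXI.t_Jnt tAAs

theorem tEqC : StmEqC := Pool.Agent.Q149.AXI.t_EqC

theorem tEqW : StmEqW := Pool.Agent.Q153.AXI.t_EqW tAAs tAxF tAlg tJnt tEqC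

theorem tEqJ : StmEqJ := Pool.Agent.Q153.AXI.t_EqJ tAAs tAxF tAlg tJnt tEqW

theorem tEqO : StmEqO := Pool.Agent.Q150.AXI.t_EqO tAlg

theorem tYdP : StmYdP :=
  Pool.Agent.Q95.AXP.yd tAlg tAxF tDiv tEqJ tEqO tJnt tDt tEn tT1P tT2P

theorem tBar : StmBar := Pool.Agent.Q119.AXI.stmBar tAlg tEqC

theorem tSm : StmSm := Pool.Agent.Q175.AX.stmSm tAlg tBar

theorem tLogP : StmLogP := Pool.Agent.Q65.AXI.t_LogP tAlg tJnt tBar

theorem tBtP : StmBtP := btP tAlg tJnt tDt tU tSm tYdP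

theorem tYiP : StmYiP := Pool.Agent.Q24.AXI.yiP tAlg tJnt tDt tU tYdP

theorem tCac : StmCac := Pool.Agent.Q111.AXI.cac Pool.Agent.Q153.AXI.t_Psi tAlg tJnt tDt tEn tEqW

theorem tFin : StmFin := Pool.Agent.Q285.AXI.fin tAlg tAxF tDiv tJnt tCac

theorem tMo : StmMo := Pool.Agent.Q16.AXI.mo tAlg tAxF

theorem tReg : StmReg := Pool.Agent.Q285.AXI.reg

theorem tGR : StmGR := Pool.Agent.Q151.AXI.stmGR

theorem tDer : StmDer := Pool.Agent.Q151.AXI.stmDer Pool.Agent.Q16.AXI.BQ.bq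

theorem tGd : StmGd := Pool.Agent.Q95.AXI.gd tGR tDer tKap

theorem tCut : StmCut := Pool.Agent.Q24.AXI.t_Cut

theorem tTra : StmTra := Pool.Agent.Q16.AXI.tra'

theorem tWho : StmWho := Pool.Agent.Q119.AXI.stmWho

/-- The local regularity theorem for viscosity one. -/
theorem tMainP : StmMainP :=
  Pool.Agent.Q65.AXI.t_MainP tGd tLogP tCut tBtP tYiP tFin tMo tReg tAlg

end Pool.Agent.Helper43.AXI
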